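import Mathlib

set_option autoImplicit false
open MeasureTheory ProbabilityTheory Filter Topology
open scoped ENNReal

namespace Pool.Agent.Helper15.LogPot

/-- The logarithmic kernel: the positive part of the logarithm of 1/|z|, with value infinity at 0. -/
noncomputable def logKernel (z : ℂ) : ℝ≥0∞ :=
  if z = 0 then ⊤ else ENNReal.ofReal (-Real.log ‖z‖)

lemma measurable_logKernel : Measurable logKernel := by
  unfold logKernel
  refine Measurable.ite (measurableSet_singleton 0) measurable_const ?_
  exact (Real.measurable_log.comp measurable_norm).neg.ennreal_ofReal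

lemma logKernel_mul_le (a b : ℂ) : logKernel (a * b) ≤ logKernel a + logKernel b := by
  by_cases ha : a = 0
  · simp [logKernel, ha]
  by_cases hb : b = 0
  · simp [logKernel, hb]
  have hab : a * b ≠ 0 := mul_ne_zero ha hb
  simp only [logKernel, ha, hb, hab, if_false, norm_mul]
  rw [Real.log_mul (norm_ne_zero_iff.2 ha) (norm_ne_zero_iff.2 hb), neg_add]
  exact ENNReal.ofReal_add_le

/-- Elementary symmetric function of degree `k` of the family `y` over the finite set `I`. -/
noncomputable def E {ι : Type*} (I : Finset ι) (k : ℕ) (y : ι → ℂ) : ℂ :=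
  ∑ s ∈ I.powersetCard k, ∏ i ∈ s, y i

variable {ι : Type*} [DecidableEq ι]

lemma E_zero (I : Finset ι) (y : ι → ℂ) : E I 0 y = 1 := by
  simp [E]

lemma E_insert (I : Finset ι) (a : ι) (ha : a ∉ I) (k : ℕ) (y : ι → ℂ) :
    E (insert a I) (k + 1) y = E I (k + 1) y + y a * E I k y := by
  unfold E
  rw [Finset.powersetCard_succ_insert ha, Finset.sum_union, Finset.sum_image]
  · congr 1
    rw [Finset.mul_sum]
    refine Finset.sum_congr rfl fun s hs => ?_
    have hsa : a ∉ s := fun h => ha ((Finset.mem_powersetCard.1 hs).1 h)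
    rw [Finset.prod_insert hsa]
  · intro s hs t ht hst
    have hsa : a ∉ s := fun h => ha ((Finset.mem_powersetCard.1 hs).1 h)
    have hta : a ∉ t := fun h => ha ((Finset.mem_powersetCard.1 ht).1 h)
    have := congrArg (fun u => Finset.erase u a) hst
    simpa [Finset.erase_insert hsa, Finset.erase_insert hta] using this
  · rw [Finset.disjoint_left]
    intro s hs hs'
    obtain ⟨t, ht, rfl⟩ := Finset.mem_image.1 hs'
    exact ha ((Finset.mem_powersetCard.1 hs).1 (Finset.mem_insert_self a t))

lemma E_congr (I : Finset ι) (k : ℕ) (y z : ι → ℂ) (h : ∀ i ∈ I, y i = z i) :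
    E I k y = E I k z := by
  unfold E
  refine Finset.sum_congr rfl fun s hs => Finset.prod_congr rfl fun i hi => ?_
  exact h i ((Finset.mem_powersetCard.1 hs).1 hi)

lemma measurable_E (I : Finset ι) (k : ℕ) : Measurable (fun y : ι → ℂ => E I k y) := by
  unfold E
  refine Finset.measurable_sum _ fun s _ => Finset.measurable_prod _ fun i _ => ?_
  exact measurable_pi_apply i

open Finset in
/-- The main estimate: integrating out the variables of `S` (as many as the degree). -/
lemma lmarginal_le (ν : ι → Measure ℂ) [∀ i, SigmaFinite (ν i)] (C : ℝ≥0∞) (S : Finset ι) :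
    ∀ I : Finset ι, S ⊆ I →
      (∀ i ∈ S, ∀ c : ℂ, ∫⁻ y, logKernel (y + c) ∂(ν i) ≤ C * ν i Set.univ) →
      ∀ x, (∫⋯∫⁻_S, (fun y => logKernel (E I (#S) y)) ∂ν) x
        ≤ (#S : ℝ≥0∞) * C * ∏ i ∈ S, ν i Set.univ := by
  induction S using Finset.induction_on with
  | empty =>
    intro I _ _ x
    simp [E_zero, logKernel]
  | insert a S ha ih =>
    intro I hI hC x
    have haI : a ∈ I := hI (mem_insert_self a S)
    have hmeas : Measurable (fun y : ι → ℂ => logKernel (E I (#(insert a S)) y)) :=
      measurable_logKernel.comp (measurable_E _ _)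
    rw [lmarginal_insert' _ hmeas ha]
    set J := I.erase a with hJ
    have haJ : a ∉ J := notMem_erase a I
    have hIJ : I = insert a J := (insert_erase haI).symm
    have hSJ : S ⊆ J := by
      intro i hi
      refine mem_erase.2 ⟨?_, hI (mem_insert_of_mem hi)⟩
      rintro rfl
      exact ha hi
    have hcard : #(insert a S) = #S + 1 := card_insert_of_notMem ha
    have hinner : (fun x : ι → ℂ => ∫⁻ t, logKernel (E I (#(insert a S)) (Function.update x a t)) ∂(ν a))
        ≤ fun x => (logKernel (E J (#S) x) + C) * ν a Set.univ := by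
      intro x
      have hpt : ∀ t, logKernel (E I (#(insert a S)) (Function.update x a t))
          ≤ logKernel (E J (#S) x) + logKernel (t + E J (#S + 1) x / E J (#S) x) := by
        intro t
        rw [hcard, hIJ, E_insert J a haJ]
        have h1 : E J (#S + 1) (Function.update x a t) = E J (#S + 1) x :=
          E_congr _ _ _ _ fun i hi => by
            rw [Function.update_of_ne]
            rintro rfl
            exact haJ hi
        have h2 : E J (#S) (Function.update x a t) = E J (#S) x :=
          E_congr _ _ _ _ fun i hi => by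
            rw [Function.update_of_ne]
            rintro rfl
            exact haJ hi
        rw [h1, h2, Function.update_self]
        by_cases h0 : E J (#S) x = 0
        · simp [h0, logKernel]
        · have : E J (#S + 1) x + t * E J (#S) x
              = E J (#S) x * (t + E J (#S + 1) x / E J (#S) x) := by
            field_simp
            ring
          rw [this]
          exact logKernel_mul_le _ _
      calc ∫⁻ t, logKernel (E I (#(insert a S)) (Function.update x a t)) ∂(ν a)
          ≤ ∫⁻ t, (logKernel (E J (#S) x) + logKernel (t + E J (#S + 1) x / E J (#S) x)) ∂(ν a) :=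
            lintegral_mono hpt
        _ = logKernel (E J (#S) x) * ν a Set.univ
            + ∫⁻ t, logKernel (t + E J (#S + 1) x / E J (#S) x) ∂(ν a) := by
            rw [lintegral_add_left measurable_const, lintegral_const]
        _ ≤ logKernel (E J (#S) x) * ν a Set.univ + C * ν a Set.univ := by
            gcongr
            exact hC a (mem_insert_self a S) _
        _ = (logKernel (E J (#S) x) + C) * ν a Set.univ := by ring
    refine (lmarginal_mono hinner x).trans ?_
    have hmJ : Measurable (fun y : ι → ℂ => logKernel (E J (#S) y)) :=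
      measurable_logKernel.comp (measurable_E _ _)
    have hlin : (∫⋯∫⁻_S, (fun x => (logKernel (E J (#S) x) + C) * ν a Set.univ) ∂ν) x
        = ((∫⋯∫⁻_S, (fun x => logKernel (E J (#S) x)) ∂ν) x + C * ∏ i ∈ S, ν i Set.univ)
          * ν a Set.univ := by
      have hm2 : Measurable fun y : (i : S) → ℂ =>
          logKernel (E J (#S) (Function.updateFinset x S y)) :=
        hmJ.comp measurable_updateFinset
      simp only [lmarginal]
      rw [lintegral_mul_const _ (hm2.add_const C), lintegral_add_right _ measurable_const,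
        lintegral_const, Measure.pi_univ]
      congr 3
      exact (Finset.prod_coe_sort S (fun i => ν i Set.univ))
    rw [hlin, hcard, Finset.prod_insert ha]
    have := ih J hSJ (fun i hi => hC i (mem_insert_of_mem hi)) x
    calc ((∫⋯∫⁻_S, (fun x => logKernel (E J (#S) x)) ∂ν) x + C * ∏ i ∈ S, ν i Set.univ)
          * ν a Set.univ
        ≤ (((#S : ℝ≥0∞) * C * ∏ i ∈ S, ν i Set.univ) + C * ∏ i ∈ S, ν i Set.univ)
          * ν a Set.univ := by gcongr
      _ = (((#S + 1 : ℕ) : ℝ≥0∞)) * C * (ν a Set.univ * ∏ i ∈ S, ν i Set.univ) := by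
          push_cast
          ring

/-- The estimate for the full product measure. -/
lemma lintegral_le [Fintype ι] (ν : ι → Measure ℂ) [∀ i, SigmaFinite (ν i)] (C : ℝ≥0∞)
    (S : Finset ι)
    (hC : ∀ i ∈ S, ∀ c : ℂ, ∫⁻ y, logKernel (y + c) ∂(ν i) ≤ C * ν i Set.univ) :
    ∫⁻ y, logKernel (E Finset.univ S.card y) ∂(Measure.pi ν)
      ≤ (S.card : ℝ≥0∞) * C * Measure.pi ν Set.univ := by
  have hmeas : Measurable (fun y : ι → ℂ => logKernel (E Finset.univ S.card y)) :=
    measurable_logKernel.comp (measurable_E _ _)
  have hdisj : Disjoint (Sᶜ) S := Finset.disjoint_left.2 fun i h1 h2 => by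
    exact (Finset.mem_compl.1 h1) h2
  have hun : (Finset.univ : Finset ι) = Sᶜ ∪ S := by
    rw [Finset.union_comm, Finset.union_compl]
  rw [lintegral_eq_lmarginal_univ (μ := ν) (fun _ => (0 : ℂ))]
  have h1 : (∫⋯∫⁻_(Finset.univ : Finset ι), (fun y => logKernel (E Finset.univ S.card y)) ∂ν)
      = ∫⋯∫⁻_Sᶜ, ∫⋯∫⁻_S, (fun y => logKernel (E Finset.univ S.card y)) ∂ν ∂ν := by
    conv_lhs => rw [show (∫⋯∫⁻_(Finset.univ : Finset ι), (fun y => logKernel (E Finset.univ S.card y)) ∂ν)
      = ∫⋯∫⁻_(Sᶜ ∪ S), (fun y => logKernel (E Finset.univ S.card y)) ∂ν by rw [← hun]]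
    exact lmarginal_union ν _ hmeas hdisj
  rw [h1]
  have h2 : (∫⋯∫⁻_S, (fun y => logKernel (E Finset.univ S.card y)) ∂ν)
      ≤ fun _ => (S.card : ℝ≥0∞) * C * ∏ i ∈ S, ν i Set.univ := fun x =>
    lmarginal_le ν C S Finset.univ (Finset.subset_univ S) hC x
  refine (lmarginal_mono h2 _).trans ?_
  simp only [lmarginal]
  rw [lintegral_const, Measure.pi_univ, Measure.pi_univ,
    Finset.prod_coe_sort (Sᶜ) (fun i => ν i Set.univ),
    ← Finset.prod_mul_prod_compl S (fun i => ν i Set.univ)]
  exact le_of_eq (by ring)

end Pool.Agent.Helper15.LogPot
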