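import Pool.Agent.Helper15.LogPot.Core

set_option autoImplicit false
open MeasureTheory ProbabilityTheory Filter Topology
open scoped ENNReal

namespace Pool.Agent.Helper15.LogPot

/-- From a small value of the norm to a large value of the kernel. -/
lemma le_logKernel_of_norm_le {z : ℂ} {t : ℝ} (h : ‖z‖ ≤ Real.exp (-t)) :
    ENNReal.ofReal t ≤ logKernel z := by
  by_cases hz : z = 0
  · simp [logKernel, hz]
  · simp only [logKernel, hz, if_false]
    apply ENNReal.ofReal_le_ofReal
    have hpos : 0 < ‖z‖ := norm_pos_iff.2 hz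
    have := Real.log_le_log hpos h
    rw [Real.log_exp] at this
    linarith

/-- The bad set. -/
def bad (n k : ℕ) (t : ℝ) : Set (Fin n → ℂ) := {y | ‖E Finset.univ k y‖ ≤ Real.exp (-t)}

lemma measurableSet_bad (n k : ℕ) (t : ℝ) : MeasurableSet (bad n k t) :=
  measurableSet_le (measurable_E _ _).norm measurable_const

/-- The box of the configurations whose coordinates in `A` are exactly those of `T`. -/
def box {n : ℕ} (A : Set ℂ) (T : Finset (Fin n)) : Set (Fin n → ℂ) :=
  Set.univ.pi (fun i => if i ∈ T then A else Aᶜ)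

lemma mem_box {n : ℕ} (A : Set ℂ) [DecidablePred (· ∈ A)] (y : Fin n → ℂ) :
    y ∈ box A (Finset.univ.filter fun i => y i ∈ A) := by
  intro i _
  by_cases h : y i ∈ A
  · simp [h]
  · simp [h]

lemma box_measure {n : ℕ} (μ : Measure ℂ) [IsProbabilityMeasure μ] (A : Set ℂ)
    (T : Finset (Fin n)) :
    Measure.pi (fun _ : Fin n => μ) (box A T)
      = (∏ _i ∈ T, μ A) * ∏ _i ∈ Tᶜ, μ Aᶜ := by
  unfold box
  rw [Measure.pi_pi, ← Finset.prod_mul_prod_compl T]
  congr 1
  · exact Finset.prod_congr rfl fun i hi => by simp [hi]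
  · exact Finset.prod_congr rfl fun i hi => by simp [Finset.mem_compl.1 hi]

lemma sum_box {n : ℕ} (μ : Measure ℂ) [IsProbabilityMeasure μ] (A : Set ℂ)
    (hA : MeasurableSet A) :
    ∑ T : Finset (Fin n), Measure.pi (fun _ : Fin n => μ) (box A T) = 1 := by
  simp_rw [box_measure]
  have h := Finset.prod_add (fun _ : Fin n => μ A) (fun _ : Fin n => μ Aᶜ) Finset.univ
  rw [measure_add_measure_compl hA, measure_univ] at h
  simp only [Finset.prod_const_one, Finset.powerset_univ] at h
  rw [h]
  refine Finset.sum_congr rfl fun T _ => ?_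
  rw [Finset.compl_eq_univ_sdiff]

/-- Bound in one box. -/
lemma bad_box_le {n : ℕ} (μ : Measure ℂ) [IsProbabilityMeasure μ] (A : Set ℂ)
    (hA : MeasurableSet A) (hA0 : μ A ≠ 0) (C : ℝ≥0∞)
    (hC : ∀ c : ℂ, ∫⁻ y in A, logKernel (y + c) ∂μ ≤ C)
    (k : ℕ) (t : ℝ) (T : Finset (Fin n)) (hT : k ≤ T.card) :
    ENNReal.ofReal t * Measure.pi (fun _ : Fin n => μ) (bad n k t ∩ box A T)
      ≤ (k : ℝ≥0∞) * (C / μ A) * Measure.pi (fun _ : Fin n => μ) (box A T) := by
  have hres : (Measure.pi (fun _ : Fin n => μ)).restrict (box A T)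
      = Measure.pi (fun i : Fin n => μ.restrict (if i ∈ T then A else Aᶜ)) :=
    Measure.restrict_pi_pi _ _
  rw [← Measure.restrict_apply (measurableSet_bad n k t), hres]
  have huniv : Measure.pi (fun _ : Fin n => μ) (box A T)
      = Measure.pi (fun i : Fin n => μ.restrict (if i ∈ T then A else Aᶜ)) Set.univ := by
    rw [← hres, Measure.restrict_apply MeasurableSet.univ, Set.univ_inter]
  rw [huniv]
  obtain ⟨S, hST, hS⟩ := Finset.exists_subset_card_eq hT
  have key := lintegral_le (fun i : Fin n => μ.restrict (if i ∈ T then A else Aᶜ)) (C / μ A) S ?_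
  · rw [hS] at key
    refine le_trans ?_ key
    refine le_trans ?_ (mul_meas_ge_le_lintegral
      (measurable_logKernel.comp (measurable_E _ _)) (ENNReal.ofReal t))
    gcongr
    intro y hy
    exact le_logKernel_of_norm_le hy
  · intro i hi c
    have hiT : i ∈ T := hST hi
    simp only [hiT, if_true]
    rw [Measure.restrict_apply MeasurableSet.univ, Set.univ_inter,
      ENNReal.div_mul_cancel hA0 (measure_ne_top μ A)]
    exact hC c

/-- Bound for all configurations with at least `k` coordinates in `A`. -/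
lemma bad_le {n : ℕ} (μ : Measure ℂ) [IsProbabilityMeasure μ] (A : Set ℂ)
    [DecidablePred (· ∈ A)]
    (hA : MeasurableSet A) (hA0 : μ A ≠ 0) (C : ℝ≥0∞)
    (hC : ∀ c : ℂ, ∫⁻ y in A, logKernel (y + c) ∂μ ≤ C)
    (k : ℕ) (t : ℝ) :
    ENNReal.ofReal t * Measure.pi (fun _ : Fin n => μ)
        (bad n k t ∩ {y | k ≤ (Finset.univ.filter fun i => y i ∈ A).card})
      ≤ (k : ℝ≥0∞) * (C / μ A) := by
  set π := Measure.pi (fun _ : Fin n => μ) with hπ
  have hsub : bad n k t ∩ {y | k ≤ (Finset.univ.filter fun i => y i ∈ A).card}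
      ⊆ ⋃ T ∈ (Finset.univ.filter fun T : Finset (Fin n) => k ≤ T.card), (bad n k t ∩ box A T) := by
    rintro y ⟨hy, hk⟩
    simp only [Set.mem_iUnion]
    exact ⟨Finset.univ.filter fun i => y i ∈ A, by simpa using hk, hy, mem_box A y⟩
  calc ENNReal.ofReal t * π (bad n k t ∩ {y | k ≤ (Finset.univ.filter fun i => y i ∈ A).card})
      ≤ ENNReal.ofReal t * ∑ T ∈ (Finset.univ.filter fun T : Finset (Fin n) => k ≤ T.card),
          π (bad n k t ∩ box A T) := by
        gcongr
        exact (measure_mono hsub).trans (measure_biUnion_finset_le _ _)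
    _ = ∑ T ∈ (Finset.univ.filter fun T : Finset (Fin n) => k ≤ T.card),
          ENNReal.ofReal t * π (bad n k t ∩ box A T) := by rw [Finset.mul_sum]
    _ ≤ ∑ T ∈ (Finset.univ.filter fun T : Finset (Fin n) => k ≤ T.card),
          (k : ℝ≥0∞) * (C / μ A) * π (box A T) := by
        refine Finset.sum_le_sum fun T hT => ?_
        exact bad_box_le μ A hA hA0 C hC k t T (by simpa using hT)
    _ ≤ ∑ T : Finset (Fin n), (k : ℝ≥0∞) * (C / μ A) * π (box A T) :=
        Finset.sum_le_sum_of_subset (Finset.subset_univ _)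
    _ = (k : ℝ≥0∞) * (C / μ A) := by
        rw [← Finset.mul_sum, sum_box μ A hA, mul_one]

lemma sum_range_eq {n : ℕ} (k : ℕ) (y : ℕ → ℂ) :
    (∑ s ∈ (Finset.range n).powersetCard k, ∏ i ∈ s, y i)
      = E (Finset.univ : Finset (Fin n)) k (fun i => y i) := by
  unfold E
  have hr : Finset.range n = (Finset.univ : Finset (Fin n)).map Fin.valEmbedding := by
    ext i
    simp only [Finset.mem_range, Finset.mem_map, Finset.mem_univ, true_and, Fin.valEmbedding_apply]
    constructor
    · intro h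
      exact ⟨⟨i, h⟩, rfl⟩
    · rintro ⟨j, rfl⟩
      exact j.2
  rw [hr, Finset.powersetCard_map, Finset.sum_map]
  refine Finset.sum_congr rfl fun s _ => ?_
  simp [Finset.mapEmbedding]

/-- The number of indices below `n` with value in `A` is at least `k n` with high probability. -/
lemma count_tendsto {Ω : Type} [MeasurableSpace Ω] (P : Measure Ω) [IsProbabilityMeasure P]
    (Y : ℕ → Ω → ℂ) (hY : ∀ i, Measurable (Y i)) (hind : iIndepFun Y P)
    (hid : ∀ i, IdentDistrib (Y i) (Y 0) P P) (A : Set ℂ) [DecidablePred (· ∈ A)]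
    (hA : MeasurableSet A) (hA0 : P (Y 0 ⁻¹' A) ≠ 0) (k : ℕ → ℕ)
    (hk : Tendsto (fun n : ℕ => (k n : ℝ) / (n : ℝ)) atTop (𝓝 0)) :
    Tendsto (fun n : ℕ => P {ω | (Finset.univ.filter fun i : Fin n => Y i ω ∈ A).card < k n})
      atTop (𝓝 0) := by
  set X : ℕ → Ω → ℝ := fun i ω => (A.indicator (fun _ => (1 : ℝ)) (Y i ω)) with hX
  have hind1 : Measurable (A.indicator (fun _ => (1 : ℝ)) : ℂ → ℝ) :=
    measurable_const.indicator hA
  have hXm : ∀ i, Measurable (X i) := fun i => hind1.comp (hY i)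
  have hXint : Integrable (X 0) P := by
    refine Integrable.of_bound (hXm 0).aestronglyMeasurable 1 (Eventually.of_forall fun ω => ?_)
    simp only [hX, Set.indicator]
    split_ifs <;> simp
  have hpair : Pairwise (Function.onFun (fun f g => IndepFun f g P) X) := by
    intro i j hij
    exact (hind.indepFun hij).comp hind1 hind1
  have hident : ∀ i, IdentDistrib (X i) (X 0) P P := fun i => (hid i).comp hind1
  have hlaw := strong_law_ae_real X hXint hpair hident
  set p : ℝ := ∫ ω, X 0 ω ∂P with hp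
  have hpval : p = (P (Y 0 ⁻¹' A)).toReal := by
    have : X 0 = (Y 0 ⁻¹' A).indicator (fun _ => (1 : ℝ)) := by
      ext ω
      simp [hX, Set.indicator]
    rw [hp, this, integral_indicator (hY 0 hA)]
    simp [Measure.real]
  have hppos : 0 < p := by
    rw [hpval]
    exact ENNReal.toReal_pos hA0 (measure_ne_top _ _)
  have hmeas : ∀ n : ℕ, AEStronglyMeasurable (fun ω => (∑ i ∈ Finset.range n, X i ω) / (n : ℝ)) P := by
    intro n
    refine Measurable.aestronglyMeasurable ?_
    exact (Finset.measurable_sum _ fun i _ => hXm i).div_const _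
  have hTM := tendstoInMeasure_of_tendsto_ae hmeas hlaw
  have h2 := hTM (ENNReal.ofReal (p / 2)) (by simpa using hppos)
  have hev : ∀ᶠ n : ℕ in atTop, (k n : ℝ) / (n : ℝ) < p / 2 := by
    have := (tendsto_order.1 hk).2 (p / 2) (by linarith)
    exact this
  refine tendsto_of_tendsto_of_tendsto_of_le_of_le' tendsto_const_nhds h2
    (Eventually.of_forall fun _ => zero_le) ?_
  filter_upwards [hev, eventually_gt_atTop 0] with n hn hn0
  apply measure_mono
  intro ω hω
  have hn0' : (0 : ℝ) < n := by exact_mod_cast hn0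
  have hsum : (∑ i ∈ Finset.range n, X i ω)
      = ((Finset.univ.filter fun i : Fin n => Y i ω ∈ A).card : ℝ) := by
    rw [← Fin.sum_univ_eq_sum_range (fun i => X i ω) n]
    simp only [hX, Set.indicator]
    rw [Finset.card_filter]
    push_cast
    rfl
  have hlt : ((Finset.univ.filter fun i : Fin n => Y i ω ∈ A).card : ℝ) < k n := by
    exact_mod_cast hω
  have h3 : (∑ i ∈ Finset.range n, X i ω) / (n : ℝ) < p / 2 := by
    rw [hsum]
    refine lt_trans ?_ hn
    gcongr
  have hgoal : p / 2 ≤ dist ((∑ i ∈ Finset.range n, X i ω) / (n : ℝ)) p := by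
    rw [Real.dist_eq, abs_sub_comm]
    refine le_trans ?_ (le_abs_self _)
    linarith
  show ENNReal.ofReal (p / 2) ≤ edist _ _
  rw [edist_dist]
  exact ENNReal.ofReal_le_ofReal hgoal

theorem main (Ω : Type) [MeasurableSpace Ω] (P : Measure Ω) [IsProbabilityMeasure P]
    (Y : ℕ → Ω → ℂ) (hY : ∀ i, Measurable (Y i)) (hind : iIndepFun Y P)
    (hid : ∀ i, IdentDistrib (Y i) (Y 0) P P) (A : Set ℂ)
    (hA : MeasurableSet A) (hA0 : P (Y 0 ⁻¹' A) ≠ 0) (C : ℝ≥0∞) (hCtop : C ≠ ⊤)
    (hC : ∀ c : ℂ, ∫⁻ ω in Y 0 ⁻¹' A, logKernel (Y 0 ω - c) ∂P ≤ C)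
    (k : ℕ → ℕ) (hk : Tendsto (fun n : ℕ => (k n : ℝ) / (n : ℝ)) atTop (𝓝 0))
    (ε : ℝ) (hε : 0 < ε) :
    Tendsto
      (fun n : ℕ =>
        P {ω | ‖∑ s ∈ (Finset.range n).powersetCard (k n), ∏ i ∈ s, Y i ω‖
              ≤ Real.exp (-(ε * (n : ℝ)))})
      atTop (𝓝 0) := by
  classical
  set μ : Measure ℂ := P.map (Y 0) with hμ
  have hμp : IsProbabilityMeasure μ := Measure.isProbabilityMeasure_map (hY 0).aemeasurable
  have hμA : μ A = P (Y 0 ⁻¹' A) := Measure.map_apply (hY 0) hA
  have hμA0 : μ A ≠ 0 := by rw [hμA]; exact hA0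
  have hCμ : ∀ c : ℂ, ∫⁻ y in A, logKernel (y + c) ∂μ ≤ C := by
    intro c
    have hm : Measurable fun y : ℂ => logKernel (y + c) :=
      measurable_logKernel.comp (measurable_id.add_const c)
    rw [hμ, setLIntegral_map hA hm (hY 0)]
    have := hC (-c)
    simpa using this
  have hlaw : ∀ n : ℕ, P.map (fun ω (i : Fin n) => Y i ω) = Measure.pi (fun _ : Fin n => μ) := by
    intro n
    have h1 : iIndepFun (fun i : Fin n => Y i) P :=
      hind.precomp (g := fun i : Fin n => (i : ℕ)) Fin.val_injective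
    have h2 := (iIndepFun_iff_map_fun_eq_pi_map
      (f := fun i : Fin n => Y i) (fun i => (hY i).aemeasurable)).1 h1
    rw [h2]
    congr 1
    funext i
    exact (hid i).map_eq
  have hbound : ∀ n : ℕ, 0 < n → P {ω | ‖∑ s ∈ (Finset.range n).powersetCard (k n), ∏ i ∈ s, Y i ω‖
              ≤ Real.exp (-(ε * (n : ℝ)))}
      ≤ (k n : ℝ≥0∞) * (C / μ A) / ENNReal.ofReal (ε * n)
        + P {ω | (Finset.univ.filter fun i : Fin n => Y i ω ∈ A).card < k n} := by
    intro n hn
    have hn' : (0 : ℝ) < n := by exact_mod_cast hn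
    set G : Ω → (Fin n → ℂ) := fun ω i => Y i ω with hG
    have hGm : Measurable G := measurable_pi_lambda _ fun i => hY i
    have hcount : MeasurableSet
        {y : Fin n → ℂ | k n ≤ (Finset.univ.filter fun i => y i ∈ A).card} := by
      have hm : Measurable fun y : Fin n → ℂ => (Finset.univ.filter fun i => y i ∈ A).card := by
        simp_rw [Finset.card_filter]
        refine Finset.measurable_sum _ fun i _ => ?_
        exact Measurable.ite ((measurable_pi_apply i) hA) measurable_const measurable_const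
      exact measurableSet_le measurable_const hm
    have hsub : {ω | ‖∑ s ∈ (Finset.range n).powersetCard (k n), ∏ i ∈ s, Y i ω‖
              ≤ Real.exp (-(ε * (n : ℝ)))}
        ⊆ (G ⁻¹' (bad n (k n) (ε * n) ∩
            {y | k n ≤ (Finset.univ.filter fun i => y i ∈ A).card}))
          ∪ {ω | (Finset.univ.filter fun i : Fin n => Y i ω ∈ A).card < k n} := by
      intro ω hω
      by_cases h : (Finset.univ.filter fun i : Fin n => Y i ω ∈ A).card < k n
      · exact Or.inr h
      · refine Or.inl ⟨?_, not_lt.1 h⟩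
        show ‖E Finset.univ (k n) (G ω)‖ ≤ _
        have := sum_range_eq (n := n) (k n) (fun i => Y i ω)
        rw [← this]
        exact hω
    refine (measure_mono hsub).trans ((measure_union_le _ _).trans ?_)
    gcongr
    rw [← Measure.map_apply hGm ((measurableSet_bad _ _ _).inter hcount), hlaw n]
    rw [ENNReal.le_div_iff_mul_le]
    · rw [mul_comm]
      exact bad_le μ A hA hμA0 C hCμ (k n) (ε * n)
    · left
      simp only [ne_eq, ENNReal.ofReal_eq_zero, not_le]
      positivity
    · left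
      exact ENNReal.ofReal_ne_top
  have hlim1 : Tendsto (fun n : ℕ => (k n : ℝ≥0∞) * (C / μ A) / ENNReal.ofReal (ε * n))
      atTop (𝓝 0) := by
    have hfin : C / μ A ≠ ⊤ := ENNReal.div_ne_top hCtop hμA0
    set D : ℝ := (C / μ A).toReal with hD
    have hDeq : C / μ A = ENNReal.ofReal D := (ENNReal.ofReal_toReal hfin).symm
    have h1 : Tendsto (fun n : ℕ => ENNReal.ofReal ((k n : ℝ) / (n : ℝ) * (D / ε)))
        atTop (𝓝 0) := by
      have := ENNReal.tendsto_ofReal (hk.mul_const (D / ε))
      simpa using this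
    refine h1.congr' ?_
    filter_upwards [eventually_gt_atTop 0] with n hn
    have hn' : (0 : ℝ) < n := by exact_mod_cast hn
    have hD0 : 0 ≤ D := ENNReal.toReal_nonneg
    rw [hDeq, ← ENNReal.ofReal_natCast (k n), ← ENNReal.ofReal_mul (by positivity),
      ← ENNReal.ofReal_div_of_pos (by positivity)]
    congr 1
    field_simp
  have hlim2 := count_tendsto P Y hY hind hid A hA hA0 k hk
  have hlim := hlim1.add hlim2
  rw [add_zero] at hlim
  refine tendsto_of_tendsto_of_tendsto_of_le_of_le' tendsto_const_nhds hlim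
    (Eventually.of_forall fun _ => zero_le) ?_
  filter_upwards [eventually_gt_atTop 0] with n hn
  exact hbound n hn

end Pool.Agent.Helper15.LogPot
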